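import Pool.Agent.W61h.RE.Rat

/-!
The numbers `lcm ((q^n - 1) / (q^c - 1), q^(d_1) - 1, …)` for `q ≡ 1 (mod n)`.
-/

set_option autoImplicit false

open Polynomial Finset

namespace Pool.Agent.W61h.RE

theorem geom_mul (z M : ℕ) (hz : 1 ≤ z) : (∑ i ∈ range M, z ^ i) * (z - 1) = z ^ M - 1 := by
  have h1 : 1 ≤ z ^ M := Nat.one_le_pow _ _ hz
  have h2 : (((∑ i ∈ range M, z ^ i) * (z - 1) : ℕ) : ℤ) = ((z ^ M - 1 : ℕ) : ℤ) := by
    push_cast [Nat.cast_sub hz, Nat.cast_sub h1]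
    exact geom_sum_mul (z : ℤ) M
  exact_mod_cast h2

theorem pow_modEq (z M a : ℕ) (hz : 1 ≤ z) : z ^ (M * a) ≡ 1 [MOD z ^ M - 1] := by
  have h1 : z ^ M ≡ 1 [MOD z ^ M - 1] := by
    have h2 : 1 ≤ z ^ M := Nat.one_le_pow _ _ hz
    have h3 : z ^ M = (z ^ M - 1) + 1 := by omega
    conv_lhs => rw [h3]
    exact Nat.add_modEq_left
  rw [pow_mul]
  simpa using h1.pow a

/-- `∑_{j<M} z^(c j) ≡ ∑_{i<M} z^i` modulo `z^M - 1` if `c` is prime to `M`. -/
theorem perm_sum (z M c : ℕ) (hz : 1 ≤ z) (hM : 0 < M) (h : Nat.Coprime c M) :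
    ∑ j ∈ range M, z ^ (c * j) ≡ ∑ i ∈ range M, z ^ i [MOD z ^ M - 1] := by
  have h1 : ∑ j ∈ range M, z ^ (c * j) ≡ ∑ j ∈ range M, z ^ ((c * j) % M) [MOD z ^ M - 1] := by
    apply Nat.ModEq.sum
    intro j _
    have h2 : z ^ (c * j) = z ^ (M * (c * j / M)) * z ^ ((c * j) % M) := by
      rw [← pow_add, Nat.div_add_mod]
    rw [h2]
    have h3 := (pow_modEq z M (c * j / M) hz).mul_right (z ^ ((c * j) % M))
    simpa using h3
  have hinj : Set.InjOn (fun j => (c * j) % M) (range M : Set ℕ) := by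
    intro a ha b hb hab
    simp only [coe_range, Set.mem_Iio] at ha hb
    have h2 : c * a ≡ c * b [MOD M] := hab
    have h3 : a ≡ b [MOD M] := Nat.ModEq.cancel_left_of_coprime (by
      rw [Nat.gcd_comm]; exact h) h2
    have h4 : a % M = b % M := h3
    rwa [Nat.mod_eq_of_lt ha, Nat.mod_eq_of_lt hb] at h4
  have himg : (range M).image (fun j => (c * j) % M) = range M := by
    apply Finset.eq_of_subset_of_card_le
    · intro x hx
      obtain ⟨j, _, rfl⟩ := mem_image.mp hx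
      exact mem_range.mpr (Nat.mod_lt _ hM)
    · rw [card_image_of_injOn hinj]
  have h5 : ∑ j ∈ range M, z ^ ((c * j) % M) = ∑ i ∈ range M, z ^ i := by
    conv_rhs => rw [← himg]
    rw [sum_image hinj]
  rw [h5] at h1
  exact h1

theorem long_sum (z M c K : ℕ) (hz : 1 ≤ z) (hM : 0 < M) (h : Nat.Coprime c M) :
    ∑ j ∈ range (K * M), z ^ (c * j) ≡ K * ∑ i ∈ range M, z ^ i [MOD z ^ M - 1] := by
  induction K with
  | zero => simp; rfl
  | succ K ih =>
    rw [Nat.succ_mul, sum_range_add, Nat.succ_mul]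
    refine ih.add ?_
    refine Nat.ModEq.trans ?_ (perm_sum z M c hz hM h)
    apply Nat.ModEq.sum
    intro j _
    have h2 : z ^ (c * (K * M + j)) = z ^ (M * (c * K)) * z ^ (c * j) := by
      rw [← pow_add]
      congr 1
      ring
    rw [h2]
    have h3 := (pow_modEq z M (c * K) hz).mul_right (z ^ (c * j))
    simpa using h3

/-- `(q^n - 1) / (q^c - 1)` -/
def x0 (n c q : ℕ) : ℕ := (q ^ n - 1) / (q ^ c - 1)

/-- The key formula: `gcd ((q^n - 1) / (q^c - 1), q^m - 1) = κ (q^m - 1) / (q^e - 1)` with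
`e = gcd (c, m)`, `κ = n e / (c m)`, if `q ≡ 1 (mod n)`. -/
theorem gcd_key (n c m q : ℕ) (hn : 0 < n) (hc : c ∣ n) (hm : m ∣ n) (hq : 2 ≤ q)
    (hq1 : q ≡ 1 [MOD n]) :
    Nat.gcd (x0 n c q) (q ^ m - 1) * (q ^ (Nat.gcd c m) - 1)
      = (n / Nat.lcm c m) * (q ^ m - 1) := by
  have hc0 : 0 < c := Nat.pos_of_dvd_of_pos hc hn
  have hm0 : 0 < m := Nat.pos_of_dvd_of_pos hm hn
  obtain ⟨e, he⟩ : ∃ e, e = Nat.gcd c m := ⟨_, rfl⟩
  have he0 : 0 < e := by rw [he]; exact Nat.gcd_pos_of_pos_left m hc0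
  obtain ⟨c', hc'⟩ : e ∣ c := by rw [he]; exact Nat.gcd_dvd_left c m
  obtain ⟨M, hM'⟩ : e ∣ m := by rw [he]; exact Nat.gcd_dvd_right c m
  have hM0 : 0 < M := by
    rcases Nat.eq_zero_or_pos M with h | h
    · rw [hM', h] at hm0; simp at hm0
    · exact h
  have hcop : Nat.Coprime c' M := by
    have h1 : e * Nat.gcd c' M = e * 1 := by
      rw [← Nat.gcd_mul_left, ← hc', ← hM', ← he, mul_one]
    exact Nat.eq_of_mul_eq_mul_left he0 h1
  have hl : Nat.lcm c m = c * M := by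
    have h1 : Nat.gcd c m * Nat.lcm c m = c * m := Nat.gcd_mul_lcm c m
    rw [← he] at h1
    have h2 : e * Nat.lcm c m = e * (c * M) := by
      rw [h1, hM']
      ring
    exact Nat.eq_of_mul_eq_mul_left he0 h2
  obtain ⟨K, hK⟩ : Nat.lcm c m ∣ n := Nat.lcm_dvd hc hm
  have hlpos : 0 < Nat.lcm c m := Nat.lcm_pos hc0 hm0
  have hKn : n / Nat.lcm c m = K := by
    rw [hK]
    exact Nat.mul_div_cancel_left K hlpos
  obtain ⟨z, hz⟩ : ∃ z, z = q ^ e := ⟨_, rfl⟩
  have hz1 : 1 ≤ z := by rw [hz]; exact Nat.one_le_pow _ _ (by omega)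
  have hzm : q ^ m = z ^ M := by rw [hz, ← pow_mul, ← hM']
  have hx : x0 n c q = ∑ j ∈ range (K * M), z ^ (c' * j) := by
    unfold x0
    have h1 : 2 ≤ q ^ c := by
      calc 2 ≤ q := hq
        _ = q ^ 1 := (pow_one q).symm
        _ ≤ q ^ c := Nat.pow_le_pow_right (by omega) hc0
    have h2 : q ^ n = (q ^ c) ^ (K * M) := by
      rw [← pow_mul]
      congr 1
      rw [hK, hl]
      ring
    have h3 : (∑ j ∈ range (K * M), (q ^ c) ^ j) * (q ^ c - 1) = q ^ n - 1 := by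
      rw [h2]
      exact geom_mul (q ^ c) (K * M) (by omega)
    have h4 : ∑ j ∈ range (K * M), z ^ (c' * j) = ∑ j ∈ range (K * M), (q ^ c) ^ j := by
      apply sum_congr rfl
      intro j _
      rw [hz, ← pow_mul, ← pow_mul]
      congr 1
      conv_rhs => rw [hc']
      ring
    rw [h4, ← h3]
    exact Nat.mul_div_cancel _ (by omega)
  have hcong : x0 n c q ≡ K * ∑ i ∈ range M, z ^ i [MOD z ^ M - 1] := by
    rw [hx]
    exact long_sum z M c' K hz1 hM0 hcop
  obtain ⟨A, hA⟩ : ∃ A, A = ∑ i ∈ range M, z ^ i := ⟨_, rfl⟩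
  have hAz : A * (z - 1) = z ^ M - 1 := by rw [hA]; exact geom_mul z M hz1
  have hKz : K ∣ z - 1 := by
    have h1 : K ∣ n := ⟨Nat.lcm c m, by rw [hK]; ring⟩
    have h2 : n ∣ q - 1 := (Nat.modEq_iff_dvd' (by omega)).mp hq1.symm
    have h3 : q - 1 ∣ z - 1 := by
      rw [hz]
      have := Nat.sub_dvd_pow_sub_pow q 1 e
      simpa using this
    exact h1.trans (h2.trans h3)
  have hg : Nat.gcd (x0 n c q) (z ^ M - 1) = A * K := by
    have h1 : Nat.gcd (x0 n c q) (z ^ M - 1) = Nat.gcd (K * A) (z ^ M - 1) := by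
      rw [← hA] at hcong
      exact hcong.gcd_eq
    rw [h1, ← hAz, mul_comm K A, Nat.gcd_mul_left]
    congr 1
    exact Nat.gcd_eq_left hKz
  rw [← he, hKn, hzm, ← hz, hg, ← hAz]
  ring

theorem gcd_lcm_distrib' (a b c : ℕ) (ha : a ≠ 0) (hb : b ≠ 0) (hc : c ≠ 0) :
    Nat.gcd a (Nat.lcm b c) = Nat.lcm (Nat.gcd a b) (Nat.gcd a c) := by
  have h1 : Nat.lcm b c ≠ 0 := Nat.lcm_ne_zero hb hc
  have h2 : Nat.gcd a b ≠ 0 := fun h => ha (Nat.eq_zero_of_gcd_eq_zero_left h)
  have h3 : Nat.gcd a c ≠ 0 := fun h => ha (Nat.eq_zero_of_gcd_eq_zero_left h)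
  apply Nat.eq_of_factorization_eq
  · exact fun h => ha (Nat.eq_zero_of_gcd_eq_zero_left h)
  · exact Nat.lcm_ne_zero h2 h3
  · intro p
    rw [Nat.factorization_gcd ha h1, Nat.factorization_lcm hb hc, Nat.factorization_lcm h2 h3,
      Nat.factorization_gcd ha hb, Nat.factorization_gcd ha hc]
    simp only [Finsupp.inf_apply, Finsupp.sup_apply]
    exact inf_sup_left _ _ _

/-- The least common multiple of a list. -/
def lcmL (l : List ℕ) : ℕ := l.foldr Nat.lcm 1

theorem lcmL_ne_zero (l : List ℕ) (h : ∀ x ∈ l, x ≠ 0) : lcmL l ≠ 0 := by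
  induction l with
  | nil => simp [lcmL]
  | cons a l ih =>
    have : lcmL (a :: l) = Nat.lcm a (lcmL l) := rfl
    rw [this]
    exact Nat.lcm_ne_zero (h a (by simp)) (ih fun x hx => h x (by simp [hx]))

theorem gcd_lcmL (a : ℕ) (ha : a ≠ 0) (l : List ℕ) (h : ∀ x ∈ l, x ≠ 0) :
    Nat.gcd a (lcmL l) = lcmL (l.map (Nat.gcd a)) := by
  induction l with
  | nil => simp [lcmL]
  | cons b l ih =>
    have e1 : lcmL (b :: l) = Nat.lcm b (lcmL l) := rfl
    have e2 : lcmL ((b :: l).map (Nat.gcd a)) = Nat.lcm (Nat.gcd a b) (lcmL (l.map (Nat.gcd a))) :=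
      rfl
    have h' : ∀ x ∈ l, x ≠ 0 := fun x hx => h x (by simp [hx])
    rw [e1, e2, gcd_lcm_distrib' a b _ ha (h b (by simp)) (lcmL_ne_zero l h'), ih h']

/-- The family `q^m - 1`, `gcd ((q^n - 1) / (q^c - 1), q^m - 1)`. -/
def val (n c q : ℕ) (p : Bool × ℕ) : ℕ :=
  if p.1 then Nat.gcd (x0 n c q) (q ^ p.2 - 1) else q ^ p.2 - 1

/-- The index of the greatest common divisor. -/
def comb (a p : Bool × ℕ) : Bool × ℕ := (a.1 || p.1, Nat.gcd a.2 p.2)

theorem gcd_val (n c q : ℕ) (a p : Bool × ℕ) :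
    Nat.gcd (val n c q a) (val n c q p) = val n c q (comb a p) := by
  obtain ⟨b, m⟩ := a
  obtain ⟨b', m'⟩ := p
  have h := Nat.pow_sub_one_gcd_pow_sub_one q m m'
  cases b <;> cases b' <;> simp only [val, comb, Bool.or_false, Bool.or_true, if_true, if_false,
    Bool.false_eq_true] <;> rw [← h]
  · rw [← Nat.gcd_assoc, Nat.gcd_comm (q ^ m - 1), Nat.gcd_assoc]
  · rw [Nat.gcd_assoc]
  · apply Nat.dvd_antisymm
    · refine Nat.dvd_gcd ?_ (Nat.dvd_gcd ?_ ?_)
      · exact (Nat.gcd_dvd_left _ _).trans (Nat.gcd_dvd_left _ _)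
      · exact (Nat.gcd_dvd_left _ _).trans (Nat.gcd_dvd_right _ _)
      · exact (Nat.gcd_dvd_right _ _).trans (Nat.gcd_dvd_right _ _)
    · refine Nat.dvd_gcd (Nat.dvd_gcd (Nat.gcd_dvd_left _ _) ?_)
        (Nat.dvd_gcd (Nat.gcd_dvd_left _ _) ?_)
      · exact (Nat.gcd_dvd_right _ _).trans (Nat.gcd_dvd_left _ _)
      · exact (Nat.gcd_dvd_right _ _).trans (Nat.gcd_dvd_right _ _)

theorem pow_sub_ne_zero (q m : ℕ) (hq : 2 ≤ q) (hm : 0 < m) : q ^ m - 1 ≠ 0 := by
  have h1 : 2 ≤ q ^ m := by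
    calc 2 ≤ q := hq
      _ = q ^ 1 := (pow_one q).symm
      _ ≤ q ^ m := Nat.pow_le_pow_right (by omega) hm
  omega

theorem val_ne_zero (n c q : ℕ) (p : Bool × ℕ) (hq : 2 ≤ q) (hp : 0 < p.2) :
    val n c q p ≠ 0 := by
  have h1 := pow_sub_ne_zero q p.2 hq hp
  unfold val
  split
  · exact fun h => h1 (Nat.eq_zero_of_gcd_eq_zero_right h)
  · exact h1

theorem cast_pow_sub (q m : ℕ) (hq : 2 ≤ q) : ((q ^ m - 1 : ℕ) : ℚ) = (q : ℚ) ^ m - 1 := by
  have h1 : 1 ≤ q ^ m := Nat.one_le_pow _ _ (by omega)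
  rw [Nat.cast_sub h1]
  push_cast
  rfl

theorem rat_pow_sub (n m : ℕ) : IsRat n (fun q => ((q ^ m - 1 : ℕ) : ℚ)) :=
  ((IsRat.var.pow m).sub (IsRat.const 1)).congr fun q hq _ => cast_pow_sub q m hq

theorem rat_val (n c : ℕ) (hn : 0 < n) (hc : c ∣ n) (p : Bool × ℕ) (hp : p.2 ∣ n) :
    IsRat n (fun q => ((val n c q p : ℕ) : ℚ)) := by
  obtain ⟨b, m⟩ := p
  cases b with
  | false => exact (rat_pow_sub n m).congr fun q _ _ => by simp [val]
  | true =>
    have hc0 : 0 < c := Nat.pos_of_dvd_of_pos hc hn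
    have h1 : IsRat n (fun q => ((n / Nat.lcm c m : ℕ) : ℚ) * ((q ^ m - 1 : ℕ) : ℚ) /
        ((q ^ (Nat.gcd c m) - 1 : ℕ) : ℚ)) := by
      refine ((IsRat.const _).mul (rat_pow_sub n m)).div (rat_pow_sub n _) fun q hq _ => ?_
      exact_mod_cast pow_sub_ne_zero q _ hq (Nat.gcd_pos_of_pos_left m hc0)
    refine h1.congr fun q hq hq1 => ?_
    have h2 := gcd_key n c m q hn hc hp hq hq1
    have h3 : ((q ^ (Nat.gcd c m) - 1 : ℕ) : ℚ) ≠ 0 := by
      exact_mod_cast pow_sub_ne_zero q _ hq (Nat.gcd_pos_of_pos_left m hc0)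
    rw [eq_div_iff h3]
    simp only [val, if_true]
    exact_mod_cast h2

/-- The least common multiple of finitely many members of the family is a rational function. -/
theorem rat_lcmL (n c : ℕ) (hn : 0 < n) (hc : c ∣ n) : ∀ (N : ℕ) (l : List (Bool × ℕ)),
    l.length = N → (∀ p ∈ l, p.2 ∣ n) →
    IsRat n (fun q => ((lcmL (l.map (val n c q)) : ℕ) : ℚ)) := by
  intro N
  induction N with
  | zero =>
    intro l hl _
    rw [List.length_eq_zero_iff] at hl
    subst hl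
    exact (IsRat.const 1).congr fun q _ _ => by simp [lcmL]
  | succ N ih =>
    intro l hl hp
    cases l with
    | nil => simp at hl
    | cons a l =>
      have hl' : l.length = N := by simpa using hl
      have ha : a.2 ∣ n := hp a (by simp)
      have hp' : ∀ p ∈ l, p.2 ∣ n := fun p hp2 => hp p (by simp [hp2])
      have hpos : ∀ p ∈ l, 0 < p.2 := fun p hp2 => Nat.pos_of_dvd_of_pos (hp' p hp2) hn
      have ha0 : 0 < a.2 := Nat.pos_of_dvd_of_pos ha hn
      have h1 := ih l hl' hp'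
      have h2 := ih (l.map (comb a)) (by simpa using hl') (by
        intro p hp2
        obtain ⟨x, hx, rfl⟩ := List.mem_map.mp hp2
        exact (Nat.gcd_dvd_left _ _).trans ha)
      have hne : ∀ q : ℕ, 2 ≤ q → ((lcmL ((l.map (comb a)).map (val n c q)) : ℕ) : ℚ) ≠ 0 := by
        intro q hq
        have : lcmL ((l.map (comb a)).map (val n c q)) ≠ 0 := by
          apply lcmL_ne_zero
          intro x hx
          obtain ⟨p, hp2, rfl⟩ := List.mem_map.mp hx
          obtain ⟨y, hy, rfl⟩ := List.mem_map.mp hp2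
          exact val_ne_zero n c q _ hq (Nat.gcd_pos_of_pos_left _ ha0)
        exact_mod_cast this
      refine (((rat_val n c hn hc a ha).mul h1).div h2 fun q hq _ => hne q hq).congr
        fun q hq _ => ?_
      rw [eq_div_iff (hne q hq)]
      have e1 : lcmL ((a :: l).map (val n c q))
          = Nat.lcm (val n c q a) (lcmL (l.map (val n c q))) := rfl
      have e2 : lcmL ((l.map (comb a)).map (val n c q))
          = Nat.gcd (val n c q a) (lcmL (l.map (val n c q))) := by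
        rw [gcd_lcmL _ (val_ne_zero n c q a hq ha0) _ (by
          intro x hx
          obtain ⟨p, hp2, rfl⟩ := List.mem_map.mp hx
          exact val_ne_zero n c q p hq (hpos p hp2))]
        congr 1
        rw [List.map_map, List.map_map]
        apply List.map_congr_left
        intro p _
        exact (gcd_val n c q a p).symm
      rw [e1, e2]
      have := Nat.gcd_mul_lcm (val n c q a) (lcmL (l.map (val n c q)))
      have h3 : Nat.lcm (val n c q a) (lcmL (l.map (val n c q))) *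
          Nat.gcd (val n c q a) (lcmL (l.map (val n c q))) =
          val n c q a * lcmL (l.map (val n c q)) := by
        rw [mul_comm]
        exact this
      exact_mod_cast h3

theorem x0_dvd (n c q : ℕ) (hc : c ∣ n) : x0 n c q ∣ q ^ n - 1 := by
  have h1 : q ^ c - 1 ∣ q ^ n - 1 := by
    obtain ⟨m, hm⟩ := hc
    have := Nat.sub_dvd_pow_sub_pow (q ^ c) 1 m
    rw [hm, pow_mul]
    simpa using this
  unfold x0
  exact Nat.div_dvd_of_dvd h1

theorem x0_ne_zero (n c q : ℕ) (hn : 0 < n) (hc : c ∣ n) (hq : 2 ≤ q) : x0 n c q ≠ 0 := by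
  intro h
  have h1 := x0_dvd n c q hc
  rw [h, Nat.zero_dvd] at h1
  exact pow_sub_ne_zero q n hq hn h1

/-- **The least common multiples are polynomials.** -/
theorem rat_lcm (n c : ℕ) (hn : 0 < n) (hc : c ∣ n) (l : List ℕ) (hl : ∀ d ∈ l, d ∣ n) :
    IsRat n (fun q => ((l.foldr (fun d x => Nat.lcm (q ^ d - 1) x) ((q ^ n - 1) / (q ^ c - 1)) : ℕ)
      : ℚ)) := by
  have h := rat_lcmL n c hn hc _ (l.map (fun d => (false, d)) ++ [(true, n)]) rfl (by
    intro p hp
    rw [List.mem_append] at hp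
    rcases hp with hp | hp
    · obtain ⟨d, hd, rfl⟩ := List.mem_map.mp hp
      exact hl d hd
    · rw [List.mem_singleton] at hp
      rw [hp])
  refine h.congr fun q hq _ => ?_
  congr 1
  clear h hl
  induction l with
  | nil =>
    have h1 : val n c q (true, n) = x0 n c q := by
      simp only [val, if_true]
      exact Nat.gcd_eq_left (x0_dvd n c q hc)
    simp [lcmL, h1, x0]
  | cons d l ih =>
    have e1 : lcmL (((d :: l).map (fun d => (false, d)) ++ [(true, n)]).map (val n c q))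
        = Nat.lcm (q ^ d - 1) (lcmL ((l.map (fun d => (false, d)) ++ [(true, n)]).map
          (val n c q))) := rfl
    rw [e1, ← ih]
    rfl

end Pool.Agent.W61h.RE
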