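import Mathlib

/-!
Functions of `q` which agree with a rational function for all `q ≡ 1 (mod n)`, `q ≥ 2`, and
integrality.
-/

set_option autoImplicit false

open Polynomial Finset

namespace Pool.Agent.W61h.RE

/-- `F` agrees with a rational function without poles at all `q ≥ 2`, `q ≡ 1 (mod n)`. -/
def IsRat (n : ℕ) (F : ℕ → ℚ) : Prop :=
  ∃ A B : ℚ[X], ∀ q : ℕ, 2 ≤ q → q ≡ 1 [MOD n] → B.eval (q : ℚ) ≠ 0 ∧
    F q = A.eval (q : ℚ) / B.eval (q : ℚ)

namespace IsRat

variable {n : ℕ} {F G : ℕ → ℚ}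

theorem congr (h : IsRat n F) (e : ∀ q : ℕ, 2 ≤ q → q ≡ 1 [MOD n] → G q = F q) : IsRat n G := by
  obtain ⟨A, B, hAB⟩ := h
  exact ⟨A, B, fun q h2 h1 => ⟨(hAB q h2 h1).1, by rw [e q h2 h1]; exact (hAB q h2 h1).2⟩⟩

theorem poly (A : ℚ[X]) : IsRat n (fun q => A.eval (q : ℚ)) :=
  ⟨A, 1, fun q _ _ => by simp⟩

theorem const (c : ℚ) : IsRat n (fun _ => c) :=
  (poly (C c)).congr fun q _ _ => by simp

theorem var : IsRat n (fun q => (q : ℚ)) :=
  (poly X).congr fun q _ _ => by simp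

theorem add (hF : IsRat n F) (hG : IsRat n G) : IsRat n (fun q => F q + G q) := by
  obtain ⟨A, B, h⟩ := hF
  obtain ⟨A', B', h'⟩ := hG
  refine ⟨A * B' + A' * B, B * B', fun q h2 h1 => ?_⟩
  obtain ⟨a, b⟩ := h q h2 h1
  obtain ⟨a', b'⟩ := h' q h2 h1
  refine ⟨by rw [eval_mul]; exact mul_ne_zero a a', ?_⟩
  simp only
  rw [b, b', eval_add, eval_mul, eval_mul, eval_mul, div_add_div _ _ a a']
  ring

theorem mul (hF : IsRat n F) (hG : IsRat n G) : IsRat n (fun q => F q * G q) := by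
  obtain ⟨A, B, h⟩ := hF
  obtain ⟨A', B', h'⟩ := hG
  refine ⟨A * A', B * B', fun q h2 h1 => ?_⟩
  obtain ⟨a, b⟩ := h q h2 h1
  obtain ⟨a', b'⟩ := h' q h2 h1
  refine ⟨by rw [eval_mul]; exact mul_ne_zero a a', ?_⟩
  simp only
  rw [b, b', eval_mul, eval_mul, div_mul_div_comm]

theorem inv (hF : IsRat n F) (h0 : ∀ q : ℕ, 2 ≤ q → q ≡ 1 [MOD n] → F q ≠ 0) :
    IsRat n (fun q => (F q)⁻¹) := by
  obtain ⟨A, B, h⟩ := hF
  refine ⟨B, A, fun q h2 h1 => ?_⟩
  obtain ⟨a, b⟩ := h q h2 h1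
  have h3 := h0 q h2 h1
  have h4 : A.eval (q : ℚ) ≠ 0 := by
    intro h5
    apply h3
    rw [b, h5, zero_div]
  exact ⟨h4, by simp only; rw [b, inv_div]⟩

theorem div (hF : IsRat n F) (hG : IsRat n G) (h0 : ∀ q : ℕ, 2 ≤ q → q ≡ 1 [MOD n] → G q ≠ 0) :
    IsRat n (fun q => F q / G q) :=
  (hF.mul (hG.inv h0)).congr fun q _ _ => by rw [div_eq_mul_inv]

theorem sub (hF : IsRat n F) (hG : IsRat n G) : IsRat n (fun q => F q - G q) :=
  (hF.add ((const (-1)).mul hG)).congr fun q _ _ => by ring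

theorem pow (hF : IsRat n F) (k : ℕ) : IsRat n (fun q => F q ^ k) := by
  induction k with
  | zero => exact (const 1).congr fun q _ _ => by simp
  | succ k ih => exact (ih.mul hF).congr fun q _ _ => by rw [pow_succ]

theorem sum {ι : Type} (s : Finset ι) (f : ι → ℕ → ℚ) (h : ∀ i ∈ s, IsRat n (f i)) :
    IsRat n (fun q => ∑ i ∈ s, f i q) := by
  classical
  induction s using Finset.induction_on with
  | empty => exact (const 0).congr fun q _ _ => by simp
  | insert a s ha ih =>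
    refine ((h a (mem_insert_self a s)).add (ih fun i hi => h i (mem_insert_of_mem hi))).congr
      fun q _ _ => ?_
    rw [sum_insert ha]

theorem prod {ι : Type} (s : Finset ι) (f : ι → ℕ → ℚ) (h : ∀ i ∈ s, IsRat n (f i)) :
    IsRat n (fun q => ∏ i ∈ s, f i q) := by
  classical
  induction s using Finset.induction_on with
  | empty => exact (const 1).congr fun q _ _ => by simp
  | insert a s ha ih =>
    refine ((h a (mem_insert_self a s)).mul (ih fun i hi => h i (mem_insert_of_mem hi))).congr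
      fun q _ _ => ?_
    rw [prod_insert ha]

end IsRat

/-- A common denominator of the coefficients. -/
theorem exists_den (Q : ℚ[X]) : ∃ D : ℕ, 0 < D ∧ ∀ q : ℕ, ∃ z : ℤ, (D : ℚ) * Q.eval (q : ℚ) = z := by
  classical
  induction Q using Polynomial.induction_on' with
  | add P Q hP hQ =>
    obtain ⟨D, hD, h⟩ := hP
    obtain ⟨D', hD', h'⟩ := hQ
    refine ⟨D * D', Nat.mul_pos hD hD', fun q => ?_⟩
    obtain ⟨z, hz⟩ := h q
    obtain ⟨z', hz'⟩ := h' q
    refine ⟨D' * z + D * z', ?_⟩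
    rw [eval_add]
    push_cast
    rw [← hz, ← hz']
    ring
  | monomial m a =>
    refine ⟨a.den, a.den_pos, fun q => ⟨a.num * (q : ℤ) ^ m, ?_⟩⟩
    rw [eval_monomial]
    push_cast
    rw [← mul_assoc]
    congr 1
    exact Rat.den_mul_eq_num a

/-- **Integrality.** A function which agrees with a rational function for all `q ≥ 2`,
`q ≡ 1 (mod n)`, and has integral values at the primes `q ≡ 1 (mod n)`, is a polynomial. -/
theorem IsRat.poly_of_int {n : ℕ} (hn : n ≠ 0) {F : ℕ → ℚ} (hF : IsRat n F)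
    (hz : ∀ q : ℕ, q.Prime → q ≡ 1 [MOD n] → ∃ z : ℤ, F q = z) :
    ∃ f : ℚ[X], ∀ q : ℕ, 2 ≤ q → q ≡ 1 [MOD n] → F q = f.eval (q : ℚ) := by
  obtain ⟨A, B, hAB⟩ := hF
  have hB : B ≠ 0 := by
    rintro rfl
    obtain ⟨p, hp, _, hp1⟩ := Nat.exists_prime_gt_modEq_one 1 hn
    exact (hAB p hp.two_le hp1).1 (by simp)
  obtain ⟨D, hD, hDz⟩ := exists_den (A / B)
  have hdiv : ∀ x : ℚ, A.eval x = B.eval x * (A / B).eval x + (A % B).eval x := by
    intro x
    conv_lhs => rw [← EuclideanDomain.div_add_mod A B]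
    rw [eval_add, eval_mul]
  have hdeg : (A % B).degree < B.degree := EuclideanDomain.mod_lt A hB
  have hlim : Filter.Tendsto (fun x : ℚ => (A % B).eval x / B.eval x) Filter.atTop (nhds 0) :=
    Polynomial.div_tendsto_atTop_zero_of_degree_lt _ _ hdeg
  have hlim2 : Filter.Tendsto (fun x : ℚ => (D : ℚ) * ((A % B).eval x / B.eval x)) Filter.atTop
      (nhds 0) := by
    have := hlim.const_mul (D : ℚ)
    simpa using this
  have hev : ∀ᶠ x : ℚ in Filter.atTop, |(D : ℚ) * ((A % B).eval x / B.eval x)| < 1 := by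
    have := hlim2.eventually (Metric.ball_mem_nhds (0 : ℚ) one_pos)
    filter_upwards [this] with x hx
    rw [dist_zero_right] at hx
    have : ((‖(D : ℚ) * ((A % B).eval x / B.eval x)‖ : ℝ)) =
      ((|(D : ℚ) * ((A % B).eval x / B.eval x)| : ℚ) : ℝ) := by
      rw [← Rat.norm_cast_real, Real.norm_eq_abs, Rat.cast_abs]
    rw [this] at hx
    exact_mod_cast hx
  obtain ⟨x0, hx0⟩ := Filter.eventually_atTop.mp hev
  have hzero : A % B = 0 := by
    apply Polynomial.eq_zero_of_infinite_isRoot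
    refine Set.infinite_of_not_bddAbove ?_
    rintro ⟨y, hy⟩
    obtain ⟨N, hN⟩ := exists_nat_ge (max x0 y)
    obtain ⟨p, hp, hpN, hp1⟩ := Nat.exists_prime_gt_modEq_one N hn
    have hpN' : (N : ℚ) < p := by exact_mod_cast hpN
    have h1 : x0 ≤ p := le_trans (le_max_left _ _) (le_trans hN hpN'.le)
    obtain ⟨b0, hb⟩ := hAB p hp.two_le hp1
    obtain ⟨z, hz⟩ := hz p hp hp1
    obtain ⟨w, hw⟩ := hDz p
    have h2 : (D : ℚ) * ((A % B).eval (p : ℚ) / B.eval (p : ℚ)) = ((D * z - w : ℤ) : ℚ) := by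
      have h3 : (A % B).eval (p : ℚ) / B.eval (p : ℚ) = z - (A / B).eval (p : ℚ) := by
        rw [← hz, hb]
        have := hdiv (p : ℚ)
        field_simp
        linear_combination (-1 : ℚ) * this
      rw [h3, mul_sub, hw]
      push_cast
      ring
    have h4 := hx0 p h1
    rw [h2] at h4
    have h5 : |D * z - w| < 1 := by exact_mod_cast h4
    have h6 : D * z - w = 0 := Int.abs_lt_one_iff.mp h5
    rw [h6] at h2
    have h7 : (A % B).eval (p : ℚ) = 0 := by
      have hD0 : (D : ℚ) ≠ 0 := by exact_mod_cast hD.ne'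
      have h8 : (A % B).eval (p : ℚ) / B.eval (p : ℚ) = 0 := by
        have := h2
        simp only [Int.cast_zero, mul_eq_zero] at this
        exact this.resolve_left hD0
      exact (div_eq_zero_iff.mp h8).resolve_right b0
    have h9 : (p : ℚ) ≤ y := hy (show (p : ℚ) ∈ {x | (A % B).IsRoot x} from h7)
    have h10 : y ≤ (N : ℚ) := le_trans (le_max_right _ _) hN
    linarith
  refine ⟨A / B, fun q h2 h1 => ?_⟩
  obtain ⟨b0, hb⟩ := hAB q h2 h1
  rw [hb, hdiv, hzero, eval_zero, add_zero, mul_div_cancel_left₀ _ b0]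

end Pool.Agent.W61h.RE
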